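import Pool.Agent.H804.ZR.Un2
import Pool.Agent.H804.US.Fin

/-!
# The equality case of the sharp bounds on spheres: Zoll metrics
-/

open Real Set MeasureTheory Filter Topology Quaternion
open scoped ContDiff
open Pool.Agent.H206R2
open H738CP H804OP H804US
open H804OP.Cl H804OP.Sl

namespace H804ZR.Fin

theorem exists_R {V W : ℝ} (hV : 0 < V) (hW : 0 < W) (N : ℕ) (hN : N ≠ 0) :
    ∃ R : ℝ, 0 < R ∧ R ^ N * W = V := by
  refine ⟨(V / W) ^ ((N : ℝ)⁻¹), Real.rpow_pos_of_pos (by positivity) _, ?_⟩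
  rw [Real.rpow_inv_natCast_pow (by positivity) hN, div_mul_cancel₀ _ hW.ne']

theorem le_T {V W R T : ℝ} {N : ℕ} (hN : N ≠ 0) (hW : 0 < W) (hRV : R ^ N * W = V) (hT : 0 < T)
    (h : (2 * π) ^ N * V ≤ T ^ N * W) : 2 * π * R ≤ T := by
  have h2 : (2 * π * R) ^ N ≤ T ^ N := by
    have h3 : (2 * π * R) ^ N * W ≤ T ^ N * W := by
      rw [mul_pow, mul_assoc, hRV]
      exact h
    exact le_of_mul_le_mul_right h3 hW
  exact le_of_pow_le_pow_left₀ hN hT.le h2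

/-- Rotationally symmetric metrics. -/
theorem rot {L : ℝ} {f : ℝ → ℝ} (hf : Rot.IsProfile L f) {n : ℕ} (hn : 2 ≤ n)
    (hno : ∀ (γ : ℝ → EuclideanSpace ℝ (Fin n) × ℝ) (T : ℝ), 0 < T → Rot.IsGeodesic L f 1 γ →
      (∀ t, γ (t + T) = γ t) →
      (2 * π) ^ n * (∫ r in (0 : ℝ)..L, f r ^ (n - 1)) ≤
        T ^ n * ∫ t in (0 : ℝ)..π, Real.sin t ^ (n - 1)) :
    ∃ R : ℝ, 0 < R ∧ R ^ n * (∫ t in (0 : ℝ)..π, Real.sin t ^ (n - 1)) =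
      (∫ r in (0 : ℝ)..L, f r ^ (n - 1)) ∧ IsZoll n R L f := by
  have hfc : Continuous f := hf.smooth.continuous
  have hW : 0 < ∫ t in (0 : ℝ)..π, Real.sin t ^ (n - 1) := integral_sin_pow_pos _
  have hV : 0 < ∫ r in (0 : ℝ)..L, f r ^ (n - 1) := by
    refine intervalIntegral.intervalIntegral_pos_of_pos_on ((hfc.pow _).intervalIntegrable _ _)
      (fun x hx => ?_) hf.pos
    exact pow_pos (hf.fpos x hx.1 hx.2) _
  obtain ⟨R, hR, hRV⟩ := exists_R hV hW n (by omega)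
  refine ⟨R, hR, hRV, ?_⟩
  refine Un.zoll hf hn hR (n - 2) (fun γ T hT hγ hper => ?_) ?_ n
  · exact le_T (by omega) hW hRV hT (hno γ T hT hγ hper)
  · rw [show n - 2 + 1 = n - 1 by omega, show n - 2 + 2 = n by omega, hRV]

/-- The general form for metrics with Hopf symmetry. -/
theorem hopf_gen {L : ℝ} {f h : ℝ → ℝ} (hf : IsProfileUS L f h) {n : ℕ} (hn : 2 ≤ n) (a b : ℕ)
    (hfh : ∀ r ∈ Icc 0 L, f r = h r)
    (hno : ∀ (γ : ℝ → EuclideanSpace ℂ (Fin n) × ℝ) (T : ℝ), 0 < T →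
      IsGeodesicUS L f h 1 γ → (∀ t, γ (t + T) = γ t) →
      (2 * π) ^ (a + b + 3) * (∫ r in (0 : ℝ)..L, f r ^ (a + 1) * h r ^ (b + 1)) ≤
        T ^ (a + b + 3) * ∫ t in (0 : ℝ)..π, Real.sin t ^ (a + b + 2)) :
    ∃ R : ℝ, 0 < R ∧ R ^ (a + b + 3) * (∫ t in (0 : ℝ)..π, Real.sin t ^ (a + b + 2)) =
      (∫ r in (0 : ℝ)..L, f r ^ (a + 1) * h r ^ (b + 1)) ∧ IsZoll (a + b + 3) R L f := by
  have hfc : Continuous f := hf.pf.smooth.continuous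
  have hL := hf.pf.pos
  have hW : 0 < ∫ t in (0 : ℝ)..π, Real.sin t ^ (a + b + 2) := integral_sin_pow_pos _
  have hVe : (∫ r in (0 : ℝ)..L, f r ^ (a + 1) * h r ^ (b + 1)) =
      ∫ r in (0 : ℝ)..L, f r ^ (a + b + 2) := by
    apply intervalIntegral.integral_congr
    intro r hr
    rw [uIcc_of_le hL.le] at hr
    simp only
    rw [← hfh r hr]
    ring
  have hV : 0 < ∫ r in (0 : ℝ)..L, f r ^ (a + b + 2) := by
    refine intervalIntegral.intervalIntegral_pos_of_pos_on ((hfc.pow _).intervalIntegrable _ _)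
      (fun x hx => ?_) hL
    exact pow_pos (hf.pf.fpos x hx.1 hx.2) _
  rw [hVe] at hno ⊢
  obtain ⟨R, hR, hRV⟩ := exists_R hV hW (a + b + 3) (by omega)
  refine ⟨R, hR, hRV, ?_⟩
  refine Un.zoll hf.pf (k := 2) le_rfl hR (a + b + 1) (fun γ T hT hγ hper => ?_) ?_ (a + b + 3)
  · obtain ⟨γ', hγ', hper'⟩ := Lift.lift_line hf hn hγ
    exact le_T (by omega) hW hRV hT (hno γ' T hT hγ' (hper' T hper))
  · rw [show a + b + 1 + 1 = a + b + 2 by ring, show a + b + 1 + 2 = a + b + 3 by ring, hRV]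

theorem zoll_US {L : ℝ} {f h : ℝ → ℝ} (hf : IsProfileUS L f h) {n : ℕ} (hn : 2 ≤ n)
    (hno : ∀ (γ : ℝ → EuclideanSpace ℂ (Fin n) × ℝ) (T : ℝ), 0 < T →
      IsGeodesicUS L f h 1 γ → (∀ t, γ (t + T) = γ t) →
      (2 * π) ^ (2 * n) * (∫ r in (0 : ℝ)..L, f r * h r ^ (2 * n - 2)) ≤
        T ^ (2 * n) * ∫ t in (0 : ℝ)..π, Real.sin t ^ (2 * n - 1)) :
    (∀ r ∈ Icc 0 L, f r = h r) ∧
    ∃ R : ℝ, 0 < R ∧ R ^ (2 * n) * (∫ t in (0 : ℝ)..π, Real.sin t ^ (2 * n - 1)) =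
      (∫ r in (0 : ℝ)..L, f r * h r ^ (2 * n - 2)) ∧ IsZoll (2 * n) R L f := by
  have h0 := H804US.Fin.rigid_US hf hn hno
  refine ⟨h0, ?_⟩
  have e1 : 0 + (2 * n - 3) + 3 = 2 * n := by omega
  have e2 : 0 + (2 * n - 3) + 2 = 2 * n - 1 := by omega
  have e3 : 2 * n - 3 + 1 = 2 * n - 2 := by omega
  have h1 := hopf_gen hf hn 0 (2 * n - 3) h0 (fun γ T hT hγ hper => by
    have h2 := hno γ T hT hγ hper
    rw [e1, e2, e3]
    simpa using h2)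
  rw [e1, e2, e3] at h1
  simpa using h1

theorem zoll_HS {L : ℝ} {f h : ℝ → ℝ} (hf : IsProfileUS L f h) {n : ℕ} (hn : 2 ≤ n)
    (hno : ∀ (γ : ℝ → (Fin n → ℍ[ℝ]) × ℝ) (T : ℝ), 0 < T →
      IsGeodesicHS L f h 1 γ → (∀ t, γ (t + T) = γ t) →
      (2 * π) ^ (4 * n) * (∫ r in (0 : ℝ)..L, f r ^ 3 * h r ^ (4 * n - 4)) ≤
        T ^ (4 * n) * ∫ t in (0 : ℝ)..π, Real.sin t ^ (4 * n - 1)) :
    (∀ r ∈ Icc 0 L, f r = h r) ∧
    ∃ R : ℝ, 0 < R ∧ R ^ (4 * n) * (∫ t in (0 : ℝ)..π, Real.sin t ^ (4 * n - 1)) =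
      (∫ r in (0 : ℝ)..L, f r ^ 3 * h r ^ (4 * n - 4)) ∧ IsZoll (4 * n) R L f := by
  have h0 := H804US.Fin.rigid_HS hf hn hno
  refine ⟨h0, ?_⟩
  have e1 : 2 + (4 * n - 5) + 3 = 4 * n := by omega
  have e2 : 2 + (4 * n - 5) + 2 = 4 * n - 1 := by omega
  have e3 : 4 * n - 5 + 1 = 4 * n - 4 := by omega
  have h1 := hopf_gen hf (n := 2) le_rfl 2 (4 * n - 5) h0 (fun γ T hT hγ hper => by
    obtain ⟨γ', hγ', hper'⟩ := H804US.Main.embedHS hn hγ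
    have h2 := hno γ' T hT hγ' (hper' T hper)
    rw [e1, e2, e3]
    exact h2)
  rw [e1, e2, e3] at h1
  exact h1

theorem zoll_OS {A : Fin 9 → E16 →L[ℝ] E16} (hA : IsClifford A) {L : ℝ} {f h : ℝ → ℝ}
    (hf : IsProfileUS L f h)
    (hno : ∀ (γ : ℝ → E16 × ℝ) (T : ℝ), 0 < T →
      IsGeodesicOS A L f h 1 γ → (∀ t, γ (t + T) = γ t) →
      (2 * π) ^ 16 * (∫ r in (0 : ℝ)..L, f r ^ 7 * h r ^ 8) ≤
        T ^ 16 * ∫ t in (0 : ℝ)..π, Real.sin t ^ 15) :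
    (∀ r ∈ Icc 0 L, f r = h r) ∧
    ∃ R : ℝ, 0 < R ∧ R ^ 16 * (∫ t in (0 : ℝ)..π, Real.sin t ^ 15) =
      (∫ r in (0 : ℝ)..L, f r ^ 7 * h r ^ 8) ∧ IsZoll 16 R L f := by
  have h0 := H804US.Fin.rigid_OS hA hf hno
  obtain ⟨e, he, he1⟩ := Sl.exists_e hA
  exact ⟨h0, hopf_gen hf (n := 2) le_rfl 6 7 h0 (fun γ T hT hγ hper => by
    obtain ⟨γ', hγ', hper'⟩ := H804US.Main.embedOS hA he he1 hf hγ
    exact hno γ' T hT hγ' (hper' T hper))⟩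

end H804ZR.Fin
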