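import Pool.Graph.R_seed8.H206R2.Rot.Main
import Pool.Graph.R_seed8.H206R2.Rot2.Edge

/-!
# Geodesics with given initial vector
-/

open Real Set MeasureTheory Filter Topology
open scoped ContDiff

namespace H804ZR.Gd

open Pool.Agent.H206R2.Rot
open Pool.Agent.H206R2.Rot.TG (norm_sq_comb)

/-- A planar solution in the plane of two given orthonormal vectors. -/
theorem geodesic_in {L : ℝ} {f : ℝ → ℝ} (hf : IsProfile L f) {n : ℕ}
    {e₁ e₂ : EuclideanSpace ℝ (Fin n)} (he1 : ‖e₁‖ = 1) (he2 : ‖e₂‖ = 1) (he12 : inner ℝ e₁ e₂ = 0)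
    {r θ : ℝ → ℝ} {c : ℝ} (hr : ContDiff ℝ 2 r) (hθ : ContDiff ℝ 2 θ)
    (hpos : ∀ t, 0 < r t ∧ r t < L)
    (h1 : ∀ t, deriv (deriv r) t = f (r t) * deriv f (r t) * deriv θ t ^ 2)
    (h2 : ∀ t, f (r t) ^ 2 * deriv θ t = c)
    (h3 : ∀ t, deriv r t ^ 2 + f (r t) ^ 2 * deriv θ t ^ 2 = 1) :
    IsGeodesic L f 1 (fun t => polar L (r t) (Real.cos (θ t) • e₁ + Real.sin (θ t) • e₂)) := by
  set u : ℝ → EuclideanSpace ℝ (Fin n) := fun t => Real.cos (θ t) • e₁ + Real.sin (θ t) • e₂
    with hu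
  have hθ1 : ∀ t, HasDerivAt θ (deriv θ t) t := fun t =>
    (hθ.differentiable (by norm_num)).differentiableAt.hasDerivAt
  have hθ' : ContDiff ℝ 1 (deriv θ) := by
    have h2' : ContDiff ℝ (1 + 1) θ := by
      have : (1 + 1 : WithTop ℕ∞) = 2 := by norm_num
      rw [this]; exact hθ
    exact (contDiff_succ_iff_deriv.1 h2').2.2
  have hθ2 : ∀ t, HasDerivAt (deriv θ) (deriv (deriv θ) t) t := fun t =>
    (hθ'.differentiable (by norm_num)).differentiableAt.hasDerivAt
  have hr1 : ∀ t, HasDerivAt r (deriv r t) t := fun t =>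
    (hr.differentiable (by norm_num)).differentiableAt.hasDerivAt
  have hf1 : ∀ x, HasDerivAt f (deriv f x) x := fun x =>
    (hf.smooth.differentiable (by norm_num)).differentiableAt.hasDerivAt
  have hu1 : ∀ t, HasDerivAt u (deriv θ t • (-Real.sin (θ t) • e₁ + Real.cos (θ t) • e₂)) t := by
    intro t
    have ha := ((hθ1 t).cos).smul_const e₁
    have hb := ((hθ1 t).sin).smul_const e₂
    refine (ha.add hb).congr_deriv ?_
    module
  have hdu : deriv u = fun t => deriv θ t • (-Real.sin (θ t) • e₁ + Real.cos (θ t) • e₂) :=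
    funext fun t => (hu1 t).deriv
  have hu2 : ∀ t, HasDerivAt (deriv u)
      (deriv (deriv θ) t • (-Real.sin (θ t) • e₁ + Real.cos (θ t) • e₂)
        - (deriv θ t) ^ 2 • u t) t := by
    intro t
    rw [hdu]
    have ha := (((hθ1 t).sin).neg).smul_const e₁
    have hb := ((hθ1 t).cos).smul_const e₂
    have hc := (hθ2 t).smul (ha.add hb)
    refine hc.congr_deriv ?_
    have hval : ((fun y => (-fun x => Real.sin (θ x)) y • e₁) + fun y => Real.cos (θ y) • e₂) t
        = -Real.sin (θ t) • e₁ + Real.cos (θ t) • e₂ := rfl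
    rw [hval]
    simp only [hu]
    module
  have hnu : ∀ t, ‖u t‖ = 1 := by
    intro t
    have : ‖u t‖ ^ 2 = 1 := by
      rw [hu]; simp only []
      rw [norm_sq_comb he1 he2 he12]; exact Real.cos_sq_add_sin_sq _
    have h0 := norm_nonneg (u t)
    nlinarith
  have hndu : ∀ t, ‖deriv u t‖ ^ 2 = deriv θ t ^ 2 := by
    intro t
    rw [hdu]; simp only []
    rw [norm_smul, mul_pow, norm_sq_comb he1 he2 he12]
    rw [Real.norm_eq_abs, sq_abs]
    have := Real.sin_sq_add_cos_sq (θ t)
    nlinarith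
  refine ⟨r, u, hr, ?_, hnu, fun t => rfl, ?_, ?_, ?_⟩
  · rw [hu]
    have hcos : ContDiff ℝ 2 (fun t => Real.cos (θ t)) := Real.contDiff_cos.comp hθ
    have hsin : ContDiff ℝ 2 (fun t => Real.sin (θ t)) := Real.contDiff_sin.comp hθ
    exact (hcos.smul contDiff_const).add (hsin.smul contDiff_const)
  · intro t; rw [hndu, h1]
  · intro t
    rw [(hu2 t).deriv, hndu]
    have hfp : 0 < f (r t) := hf.fpos _ (hpos t).1 (hpos t).2
    -- differentiate the Clairaut relation
    have hcl : HasDerivAt (fun t => f (r t) ^ 2 * deriv θ t)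
        (2 * f (r t) * (deriv f (r t) * deriv r t) * deriv θ t
          + f (r t) ^ 2 * deriv (deriv θ) t) t := by
      have ha : HasDerivAt (fun t => f (r t)) (deriv f (r t) * deriv r t) t :=
        (hf1 (r t)).comp t (hr1 t)
      have hb := (ha.pow 2).mul (hθ2 t)
      refine hb.congr_deriv ?_
      norm_num
    have hconst : (fun t => f (r t) ^ 2 * deriv θ t) = fun _ => c := funext h2
    rw [hconst] at hcl
    have h0 := hcl.unique (hasDerivAt_const t c)
    have h0' : 2 * (deriv f (r t) * deriv r t) * deriv θ t + f (r t) * deriv (deriv θ) t = 0 := by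
      have : f (r t) * (2 * (deriv f (r t) * deriv r t) * deriv θ t
          + f (r t) * deriv (deriv θ) t) = 0 := by rw [← h0]; ring
      rcases mul_eq_zero.1 this with h | h
      · exact absurd h hfp.ne'
      · exact h
    have hdut : deriv u t = deriv θ t • (-Real.sin (θ t) • e₁ + Real.cos (θ t) • e₂) :=
      (hu1 t).deriv
    rw [hdut]
    set w := (-Real.sin (θ t) • e₁ + Real.cos (θ t) • e₂) with hw
    have : f (r t) • (deriv (deriv θ) t • w - (deriv θ t) ^ 2 • u t)
        + (2 * deriv f (r t) * deriv r t) • (deriv θ t • w)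
        + (f (r t) * deriv θ t ^ 2) • u t
        = (2 * (deriv f (r t) * deriv r t) * deriv θ t + f (r t) * deriv (deriv θ) t) • w := by
      module
    rw [this, h0', zero_smul]
  · intro t; rw [hndu, h3]; norm_num

/-- The velocity of a curve in extended polar coordinates. -/
theorem polar_deriv {n : ℕ} {L r₀ ρ : ℝ} {r : ℝ → ℝ} {u : ℝ → EuclideanSpace ℝ (Fin n)}
    {u₀ w : EuclideanSpace ℝ (Fin n)} (hr0 : r 0 = r₀) (hu0 : u 0 = u₀) (hr : HasDerivAt r ρ 0)
    (hu : HasDerivAt u w 0) :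
    HasDerivAt (fun t => polar L (r t) (u t))
      ((π / L * ρ * Real.cos (π * r₀ / L)) • u₀ + Real.sin (π * r₀ / L) • w,
        -(π / L * ρ * Real.sin (π * r₀ / L))) 0 := by
  have h1 : HasDerivAt (fun t => π * r t / L) (π * ρ / L) 0 := (hr.const_mul π).div_const L
  have h2 := h1.sin
  have h3 := h1.cos
  have h4 := h2.smul hu
  rw [hr0, hu0] at h4
  rw [hr0] at h3
  have h5 := h4.prodMk h3
  refine h5.congr_deriv ?_
  ext1
  · simp only
    rw [add_comm]
    congr 2
    ring
  · simp only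
    ring

end H804ZR.Gd
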