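import Pool.Agent.H804.RP.Rg
import Pool.Agent.H804.ZR.Gd

/-!
# Structure of the profile in the equality case
-/

open Real Set MeasureTheory Filter Topology
open scoped ContDiff
open Pool.Agent.H206R2

namespace H804ZR.Str

open Rot

/-- The action is bounded from below when no periodic geodesic is shorter than `2 π R`. -/
theorem act_ge {L : ℝ} {f : ℝ → ℝ} (hf : IsProfile L f) {k : ℕ} (hk : 2 ≤ k) {R : ℝ} (hR : 0 < R)
    (hge : ∀ (γ : ℝ → EuclideanSpace ℝ (Fin k) × ℝ) (T : ℝ), 0 < T → IsGeodesic L f 1 γ →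
      (∀ t, γ (t + T) = γ t) → 2 * π * R ≤ T) :
    ∀ c, 0 ≤ c → c ≤ R → 2 * π * (R - c) ≤ actA L f c := by
  intro c h0 h1
  have hpi := Real.pi_pos
  rcases eq_or_lt_of_le h1 with h1' | h1'
  · rw [h1', sub_self, mul_zero]
    exact (TE.actA_continuousOn hf).2.2 R
  by_contra hcon
  push Not at hcon
  obtain ⟨R', hR1, hR2, hR3⟩ : ∃ R', c < R' ∧ R' < R ∧ actA L f c < 2 * π * (R' - c) := by
    have hcont : Continuous fun x : ℝ => 2 * π * (x - c) := by fun_prop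
    have e1 : ∀ᶠ x in 𝓝[<] R, actA L f c < 2 * π * (x - c) :=
      (hcont.continuousAt.mono_left nhdsWithin_le_nhds).eventually_const_lt hcon
    have e2 : ∀ᶠ x in 𝓝[<] R, x ∈ Ioo c R := Ioo_mem_nhdsLT h1'
    obtain ⟨x, hx1, hx2⟩ := (e1.and e2).exists
    exact ⟨x, hx2.1, hx2.2, hx1⟩
  have hR' : 0 < R' := h0.trans_lt hR1
  have := Rot2.Edge.rot_edge hf hk hR' (fun γ T hT hγ hper => by
    have h2 := hge γ T hT hγ hper
    have h3 : 2 * π * R' < 2 * π * R := mul_lt_mul_of_pos_left hR2 (by positivity)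
    linarith) c h0 hR1.le
  linarith

/-- The rotation angle and the length of the oscillations in the equality case. -/
theorem structure_eq {L : ℝ} {f : ℝ → ℝ} (hf : IsProfile L f) {k : ℕ} (hk : 2 ≤ k) {R : ℝ}
    (hR : 0 < R) (m : ℕ)
    (hge : ∀ (γ : ℝ → EuclideanSpace ℝ (Fin k) × ℝ) (T : ℝ), 0 < T → IsGeodesic L f 1 γ →
      (∀ t, γ (t + T) = γ t) → 2 * π * R ≤ T)
    (hV : ∫ r in (0 : ℝ)..L, f r ^ (m + 1) ≤ R ^ (m + 2) * ∫ t in (0 : ℝ)..π, Real.sin t ^ (m + 1)) :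
    L = π * R ∧ (∀ r, 0 < r → r < L → f r ≤ R) ∧ (∀ r, 0 < r → r < L → deriv f r = 0 → f r = R) ∧
      ∀ c, 0 < c → c < R → ∃ S a b, c < S ∧ Wall L f S a b ∧ rotP L f c = 2 * π ∧
        timT L f c = 2 * π * R := by
  have hpi := Real.pi_pos
  have hA := act_ge hf hk hR hge
  have hAe := H804RP.Rg.act_eq hf hR m hA hV
  have hLeq : L = π * R := by
    have h1 := hAe 0 ⟨le_rfl, hR.le⟩
    rw [(TE.actA_continuousOn hf).2.1, sub_zero] at h1
    linarith
  have hle : ∀ r, 0 < r → r < L → f r ≤ R := by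
    intro r h0 h1
    by_contra hlt
    push Not at hlt
    have h2 := TE.volume_bound hf (n := m + 2) (by omega) hR hA ⟨r, h0, h1, hlt⟩
    rw [show m + 2 - 1 = m + 1 by omega] at h2
    linarith
  have hcrit : ∀ r, 0 < r → r < L → deriv f r = 0 → R ≤ f r := by
    intro r h0 hrL hd
    obtain ⟨γ, h1, h2⟩ := TG.parallel hf hk h0 hrL hd
    have hfr := hf.fpos r h0 hrL
    have := hge γ (2 * π * f r) (by positivity) h1 h2
    exact le_of_mul_le_mul_left this (by positivity)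
  refine ⟨hLeq, hle, fun r h0 h1 hd => le_antisymm (hle r h0 h1) (hcrit r h0 h1 hd), ?_⟩
  intro c hc0 hcR
  obtain ⟨R', h1, h2⟩ := exists_between hcR
  have hR' : 0 < R' := hc0.trans h1
  obtain ⟨S, a, b, hRS, hw⟩ := TA.exists_wall hf hR' (fun r h0 hrL hd =>
    h2.trans_le (hcrit r h0 hrL hd))
  have hd1 := Main.hasDerivAt_actA hf hw hR' hRS hc0 h1
  have hd2 : HasDerivAt (actA L f) (-(2 * π)) c := by
    have h3 : HasDerivAt (fun c => 2 * π * (R - c)) (2 * π * (-1)) c :=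
      ((hasDerivAt_id c).const_sub R).const_mul (2 * π)
    have h4 : (fun c => 2 * π * (R - c)) =ᶠ[𝓝 c] actA L f := by
      filter_upwards [isOpen_Ioo.mem_nhds (⟨hc0, hcR⟩ : c ∈ Ioo 0 R)] with x hx
      exact (hAe x ⟨hx.1.le, hx.2.le⟩).symm
    refine (h3.congr_of_eventuallyEq h4.symm).congr_deriv ?_
    ring
  have hrot : rotP L f c = 2 * π := by
    have := hd1.unique hd2
    linarith
  have hT := TD.timT_eq hf hw (TB.coarea hf hw) hc0 (h1.trans hRS)
  refine ⟨S, a, b, h1.trans hRS, hw, hrot, ?_⟩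
  rw [hT, hrot, hAe c ⟨hc0.le, hcR.le⟩]
  ring

end H804ZR.Str
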