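import Pool.Agent.H804.ZR.Zoll

/-!
# Every geodesic is closed in the equality case
-/

open Real Set MeasureTheory Filter Topology
open scoped ContDiff NNReal
open Pool.Agent.H206R2

namespace H804ZR.Un

open Rot

theorem cd1 {E : Type*} [NormedAddCommGroup E] [NormedSpace ℝ E] {x : ℝ → E}
    (hx : ContDiff ℝ 2 x) :
    (∀ t, HasDerivAt x (deriv x t) t) ∧ ContDiff ℝ 1 (deriv x) ∧
      ∀ t, HasDerivAt (deriv x) (deriv (deriv x) t) t := by
  have h1 : ContDiff ℝ 1 (deriv x) := by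
    have h2' : ContDiff ℝ (1 + 1) x := by
      have : (1 + 1 : WithTop ℕ∞) = 2 := by norm_num
      rw [this]; exact hx
    exact (contDiff_succ_iff_deriv.1 h2').2.2
  exact ⟨fun t => (hx.differentiable (by norm_num)).differentiableAt.hasDerivAt, h1,
    fun t => (h1.differentiable (by norm_num)).differentiableAt.hasDerivAt⟩

/-- Uniqueness for `x'' = G(x)`. -/
theorem ode_unique {L α β : ℝ} {G : ℝ → ℝ} (hG : ContDiffOn ℝ 1 G (Ioo 0 L)) (h0 : 0 < α)
    (h1 : β < L) {x y : ℝ → ℝ} (hx : ContDiff ℝ 2 x) (hy : ContDiff ℝ 2 y)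
    (hx2 : ∀ t, deriv (deriv x) t = G (x t)) (hy2 : ∀ t, deriv (deriv y) t = G (y t))
    (hxs : ∀ t, x t ∈ Icc α β) (hys : ∀ t, y t ∈ Icc α β) (e0 : x 0 = y 0)
    (e1 : deriv x 0 = deriv y 0) : x = y := by
  have hsub : Icc α β ⊆ Ioo 0 L := fun z hz => ⟨h0.trans_le hz.1, hz.2.trans_lt h1⟩
  have hd : ∀ z ∈ Icc α β, DifferentiableAt ℝ G z := fun z hz =>
    (hG.differentiableOn (by norm_num)).differentiableAt (isOpen_Ioo.mem_nhds (hsub hz))
  have hc : ContinuousOn (deriv G) (Icc α β) :=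
    (hG.continuousOn_deriv_of_isOpen isOpen_Ioo (by norm_num)).mono hsub
  obtain ⟨C, hC⟩ := isCompact_Icc.exists_bound_of_continuousOn hc
  have hLip : LipschitzOnWith (Real.toNNReal |C|) G (Icc α β) := by
    refine (convex_Icc α β).lipschitzOnWith_of_nnnorm_deriv_le hd (fun z hz => ?_)
    rw [← NNReal.coe_le_coe, coe_nnnorm, Real.coe_toNNReal _ (abs_nonneg C)]
    exact (hC z hz).trans (le_abs_self C)
  have hL2 : LipschitzOnWith (max 1 (Real.toNNReal |C|)) (fun p : ℝ × ℝ => (p.2, G p.1))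
      (Icc α β ×ˢ univ) := by
    have h3 : LipschitzOnWith (Real.toNNReal |C|) (fun p : ℝ × ℝ => G p.1)
        (Icc α β ×ˢ univ) := by
      have := hLip.comp (LipschitzWith.prod_fst.lipschitzOnWith (s := Icc α β ×ˢ (univ : Set ℝ)))
        (fun p hp => hp.1)
      rw [mul_one] at this
      exact this
    exact (LipschitzWith.prod_snd.lipschitzOnWith).prodMk h3
  obtain ⟨a1, -, a3⟩ := cd1 hx
  obtain ⟨b1, -, b3⟩ := cd1 hy
  have key := ODE_solution_unique_univ (v := fun _ p => (p.2, G p.1))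
    (s := fun _ => Icc α β ×ˢ univ) (K := max 1 (Real.toNNReal |C|))
    (f := fun t => (x t, deriv x t)) (g := fun t => (y t, deriv y t)) (t₀ := 0)
    (fun _ => hL2)
    (fun t => ⟨((a1 t).prodMk (a3 t)).congr_deriv (by rw [hx2]), hxs t, mem_univ _⟩)
    (fun t => ⟨((b1 t).prodMk (b3 t)).congr_deriv (by rw [hy2]), hys t, mem_univ _⟩)
    (by simp only [e0, e1])
  ext t
  exact congrArg Prod.fst (congrFun key t)

theorem f_zero {L : ℝ} {f : ℝ → ℝ} (hf : IsProfile L f) : f 0 = 0 := by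
  have := hf.odd_zero 0
  rw [neg_zero] at this
  linarith

theorem f_L {L : ℝ} {f : ℝ → ℝ} (hf : IsProfile L f) : f L = 0 := by
  have := hf.odd_L 0
  rw [add_zero, sub_zero] at this
  linarith

theorem f_red {L : ℝ} {f : ℝ → ℝ} (hf : IsProfile L f) {σ : ℝ} (hσ : σ ^ 2 = 1) (j : ℤ) (x : ℝ) :
    f (σ * x + 2 * j * L) = σ * f x := by
  have hper : Function.Periodic f (2 * L) := by
    intro y
    have h1 := hf.odd_L (y + L)
    rw [show L + (y + L) = y + 2 * L by ring, show L - (y + L) = -y by ring, hf.odd_zero] at h1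
    linarith
  have h2 := hper.int_mul j (σ * x)
  rw [show σ * x + 2 * j * L = σ * x + j * (2 * L) by ring, h2]
  rcases Zl.sq_one_or σ hσ with h | h
  · rw [h, one_mul, one_mul]
  · rw [h, show (-1 : ℝ) * x = -x by ring, hf.odd_zero]
    ring

theorem df_red {L : ℝ} {f : ℝ → ℝ} (hf : IsProfile L f) {σ : ℝ} (hσ : σ ^ 2 = 1) (j : ℤ) (x : ℝ) :
    deriv f (σ * x + 2 * j * L) = deriv f x := by
  have hf1 : ∀ x, HasDerivAt f (deriv f x) x := fun x =>
    (hf.smooth.differentiable (by norm_num)).differentiableAt.hasDerivAt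
  have h0 : HasDerivAt (fun x : ℝ => σ * x + 2 * j * L) σ x := by
    simpa using ((hasDerivAt_id x).const_mul σ).add_const (2 * j * L)
  have h1 := (hf1 (σ * x + 2 * j * L)).comp x h0
  have h2 := (hf1 x).const_mul σ
  have h3 : (f ∘ fun x : ℝ => σ * x + 2 * j * L) = fun x => σ * f x :=
    funext fun y => f_red hf hσ j y
  rw [h3] at h1
  have h4 := h1.unique h2
  have h5 : σ ≠ 0 := by
    intro h
    rw [h] at hσ
    norm_num at hσ
  have h6 : σ * deriv f (σ * x + 2 * j * L) = σ * deriv f x := by linarith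
  exact mul_left_cancel₀ h5 h6

/-- Reduction to `[0, L]`. -/
theorem red {L : ℝ} (hL : 0 < L) (x : ℝ) : ∃ (σ : ℝ) (j : ℤ), σ ^ 2 = 1 ∧
    0 ≤ σ * x + 2 * j * L ∧ σ * x + 2 * j * L ≤ L := by
  have h1 := Int.floor_le (x / (2 * L))
  have h2 := Int.lt_floor_add_one (x / (2 * L))
  have h2L : 0 < 2 * L := by linarith
  rw [le_div_iff₀ h2L] at h1
  rw [div_lt_iff₀ h2L] at h2
  by_cases h : x ≤ ⌊x / (2 * L)⌋ * (2 * L) + L
  · refine ⟨1, -⌊x / (2 * L)⌋, by norm_num, ?_, ?_⟩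
    · push_cast
      linarith
    · push_cast
      linarith
  · push Not at h
    refine ⟨-1, ⌊x / (2 * L)⌋ + 1, by norm_num, ?_, ?_⟩
    · push_cast
      linarith
    · push_cast
      linarith

/-- Unit speed geodesics in extended polar coordinates. -/
structure Geo {n : ℕ} (L : ℝ) (f : ℝ → ℝ) (r : ℝ → ℝ) (u : ℝ → EuclideanSpace ℝ (Fin n)) :
    Prop where
  hr : ContDiff ℝ 2 r
  hu : ContDiff ℝ 2 u
  norm : ∀ t, ‖u t‖ = 1
  e1 : ∀ t, deriv (deriv r) t = f (r t) * deriv f (r t) * ‖deriv u t‖ ^ 2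
  e2 : ∀ t, f (r t) • deriv (deriv u) t + (2 * deriv f (r t) * deriv r t) • deriv u t
      + (f (r t) * ‖deriv u t‖ ^ 2) • u t = 0
  e3 : ∀ t, deriv r t ^ 2 + f (r t) ^ 2 * ‖deriv u t‖ ^ 2 = 1

variable {n : ℕ} {L : ℝ} {f : ℝ → ℝ} {r : ℝ → ℝ} {u : ℝ → EuclideanSpace ℝ (Fin n)}

theorem Geo.red (hf : IsProfile L f) (hg : Geo L f r u) {σ : ℝ} (hσ : σ ^ 2 = 1) (j : ℤ) :
    Geo L f (fun t => σ * r t + 2 * j * L) (fun t => σ • u t) := by
  have hσa : |σ| = 1 := by
    rcases Zl.sq_one_or σ hσ with h | h <;> rw [h] <;> norm_num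
  have d1 : deriv (fun t => σ * r t + 2 * j * L) = fun t => σ * deriv r t := funext fun t =>
    (((cd1 hg.hr).1 t).const_mul σ |>.add_const (2 * j * L)).deriv
  have d2 : ∀ t, deriv (fun t => σ * deriv r t) t = σ * deriv (deriv r) t := fun t =>
    (((cd1 hg.hr).2.2 t).const_mul σ).deriv
  have d3 : deriv (fun t => σ • u t) = fun t => σ • deriv u t := funext fun t =>
    (((cd1 hg.hu).1 t).const_smul σ).deriv
  have d4 : ∀ t, deriv (fun t => σ • deriv u t) t = σ • deriv (deriv u) t := fun t =>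
    (((cd1 hg.hu).2.2 t).const_smul σ).deriv
  have nn : ∀ t, ‖σ • deriv u t‖ = ‖deriv u t‖ := fun t => by
    rw [norm_smul, Real.norm_eq_abs, hσa, one_mul]
  refine ⟨(contDiff_const.mul hg.hr).add contDiff_const, hg.hu.const_smul σ, fun t => ?_,
    fun t => ?_, fun t => ?_, fun t => ?_⟩
  · rw [norm_smul, Real.norm_eq_abs, hσa, one_mul, hg.norm]
  · rw [d1, d2, d3, f_red hf hσ, df_red hf hσ, nn, hg.e1]
    ring
  · rw [d1, d3, d4, nn, f_red hf hσ, df_red hf hσ]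
    have h := hg.e2 t
    have : (σ * f (r t)) • σ • deriv (deriv u) t + (2 * deriv f (r t) * (σ * deriv r t)) •
        σ • deriv u t + (σ * f (r t) * ‖deriv u t‖ ^ 2) • σ • u t =
        (σ ^ 2) • (f (r t) • deriv (deriv u) t + (2 * deriv f (r t) * deriv r t) • deriv u t
      + (f (r t) * ‖deriv u t‖ ^ 2) • u t) := by module
    rw [this, h, smul_zero]
  · rw [d1, d3, nn, f_red hf hσ]
    have h := hg.e3 t
    have : (σ * deriv r t) ^ 2 + (σ * f (r t)) ^ 2 * ‖deriv u t‖ ^ 2 =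
        σ ^ 2 * (deriv r t ^ 2 + f (r t) ^ 2 * ‖deriv u t‖ ^ 2) := by ring
    rw [this, h, hσ, one_mul]

theorem polar_red (hL : 0 < L) {σ : ℝ} (hσ : σ ^ 2 = 1) (j : ℤ) (x : ℝ)
    (v : EuclideanSpace ℝ (Fin n)) : polar L (σ * x + 2 * j * L) (σ • v) = polar L x v := by
  unfold polar
  have h1 : π * (σ * x + 2 * j * L) / L = π * (σ * x) / L + j * (2 * π) := by
    field_simp
  rw [h1, Real.sin_add_int_mul_two_pi, Real.cos_add_int_mul_two_pi]
  rcases Zl.sq_one_or σ hσ with h | h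
  · rw [h, one_mul, one_smul]
  · rw [h]
    have h2 : π * (-1 * x) / L = -(π * x / L) := by ring
    rw [h2, Real.sin_neg, Real.cos_neg]
    ext1
    · simp
    · rfl

theorem Geo.orth (hg : Geo L f r u) (t : ℝ) : inner ℝ (u t) (deriv u t) = 0 := by
  have h1 := (cd1 hg.hu).1 t
  have h2 := h1.inner ℝ h1
  have h3 : (fun t => inner ℝ (u t) (u t)) = fun _ => (1 : ℝ) := by
    funext s
    rw [real_inner_self_eq_norm_sq, hg.norm]
    norm_num
  rw [h3] at h2
  have h4 := h2.unique (hasDerivAt_const t (1 : ℝ))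
  rw [real_inner_comm (u t) (deriv u t)] at h4
  rw [real_inner_comm] at h4 ⊢
  linarith

theorem Geo.V (hf : IsProfile L f) (hg : Geo L f r u) (t : ℝ) :
    HasDerivAt (fun t => f (r t) ^ 2 • deriv u t)
      (-(f (r t) ^ 2 * ‖deriv u t‖ ^ 2) • u t) t := by
  have hf1 : ∀ x, HasDerivAt f (deriv f x) x := fun x =>
    (hf.smooth.differentiable (by norm_num)).differentiableAt.hasDerivAt
  have h1 : HasDerivAt (fun t => f (r t)) (deriv f (r t) * deriv r t) t :=
    (hf1 (r t)).comp t ((cd1 hg.hr).1 t)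
  have h2 := (h1.pow 2).smul ((cd1 hg.hu).2.2 t)
  refine h2.congr_deriv ?_
  have h3 := hg.e2 t
  have h4 : f (r t) ^ 2 • deriv (deriv u) t +
      ((2 : ℕ) * f (r t) ^ (2 - 1) * (deriv f (r t) * deriv r t)) • deriv u t =
      f (r t) • (f (r t) • deriv (deriv u) t + (2 * deriv f (r t) * deriv r t) • deriv u t
      + (f (r t) * ‖deriv u t‖ ^ 2) • u t) - (f (r t) ^ 2 * ‖deriv u t‖ ^ 2) • u t := by
    norm_num
    module
  simp only [Pi.pow_apply] at h4 ⊢
  rw [h4, h3, smul_zero, zero_sub, neg_smul]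

/-- Clairaut's relation. -/
theorem Geo.clairaut (hf : IsProfile L f) (hg : Geo L f r u) :
    ∃ c : ℝ, 0 ≤ c ∧ ∀ t, f (r t) ^ 4 * ‖deriv u t‖ ^ 2 = c ^ 2 := by
  have hV := hg.V hf
  have h1 : ∀ t, HasDerivAt (fun t => inner ℝ (f (r t) ^ 2 • deriv u t)
      (f (r t) ^ 2 • deriv u t)) 0 t := by
    intro t
    have h2 := (hV t).inner ℝ (hV t)
    refine h2.congr_deriv ?_
    have h3 := hg.orth t
    have h3' : inner ℝ (deriv u t) (u t) = 0 := by rw [real_inner_comm]; exact h3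
    simp only [inner_smul_left, inner_smul_right, h3, h3', mul_zero, add_zero]
  have h2 : ∀ t, inner ℝ (f (r t) ^ 2 • deriv u t) (f (r t) ^ 2 • deriv u t) =
      inner ℝ (f (r 0) ^ 2 • deriv u 0) (f (r 0) ^ 2 • deriv u 0) := by
    intro t
    exact is_const_of_deriv_eq_zero (fun t => (h1 t).differentiableAt) (fun t => (h1 t).deriv) t 0
  refine ⟨‖f (r 0) ^ 2 • deriv u 0‖, norm_nonneg _, fun t => ?_⟩
  have e : ‖f (r t) ^ 2 • deriv u t‖ ^ 2 = ‖f (r 0) ^ 2 • deriv u 0‖ ^ 2 := by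
    have h3 := h2 t
    rwa [real_inner_self_eq_norm_sq, real_inner_self_eq_norm_sq] at h3
  rw [← e, norm_smul, mul_pow, Real.norm_eq_abs, sq_abs]
  ring

end H804ZR.Un
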