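import Pool.Agent.H804.ZR.Un

/-!
# Every geodesic is closed in the equality case: conclusion
-/

open Real Set MeasureTheory Filter Topology
open scoped ContDiff NNReal
open Pool.Agent.H206R2

namespace H804ZR.Un

open Rot

variable {n : ℕ} {L : ℝ} {f : ℝ → ℝ} {r : ℝ → ℝ} {u : ℝ → EuclideanSpace ℝ (Fin n)}

/-- The interval on which `f ≥ c`. -/
theorem exists_ab (hf : IsProfile L f) {c : ℝ} (hc : 0 < c) :
    ∃ α β, 0 < α ∧ β < L ∧ ∀ x, 0 < x → x < L → c ≤ f x → x ∈ Icc α β := by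
  have hfc : Continuous f := hf.smooth.continuous
  have e0 : ∀ᶠ x in 𝓝 (0 : ℝ), f x < c :=
    hfc.continuousAt.eventually_lt_const (by rw [f_zero hf]; exact hc)
  have eL : ∀ᶠ x in 𝓝 L, f x < c :=
    hfc.continuousAt.eventually_lt_const (by rw [f_L hf]; exact hc)
  obtain ⟨α, hα, h1⟩ := Metric.eventually_nhds_iff.1 e0
  obtain ⟨δ, hδ, h2⟩ := Metric.eventually_nhds_iff.1 eL
  refine ⟨α, L - δ, hα, by linarith, fun x h0 hL hc' => ⟨?_, ?_⟩⟩
  · by_contra hcon
    push Not at hcon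
    have := h1 (y := x) (by rw [Real.dist_eq, sub_zero, abs_of_pos h0]; exact hcon)
    linarith
  · by_contra hcon
    push Not at hcon
    have := h2 (y := x) (by
      rw [Real.dist_eq, abs_sub_comm, abs_of_pos (by linarith)]
      linarith)
    linarith

/-- The direction rotates with angular velocity `c / f²`. -/
theorem angle (hf : IsProfile L f) (hg : Geo L f r u) {c : ℝ} (hc : 0 < c)
    (hcl : ∀ t, f (r t) ^ 4 * ‖deriv u t‖ ^ 2 = c ^ 2) (hfp : ∀ t, 0 < f (r t))
    {φ : ℝ → ℝ} (hφ : ∀ t, HasDerivAt φ (c / f (r t) ^ 2) t) (hφ0 : φ 0 = 0) (t : ℝ) :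
    u t = Real.cos (φ t) • u 0 + Real.sin (φ t) • (c⁻¹ • (f (r 0) ^ 2 • deriv u 0)) := by
  set v : ℝ → EuclideanSpace ℝ (Fin n) := fun t => c⁻¹ • (f (r t) ^ 2 • deriv u t) with hv
  have hu1 : ∀ t, HasDerivAt u ((c / f (r t) ^ 2) • v t) t := by
    intro t
    have h1 := (cd1 hg.hu).1 t
    refine h1.congr_deriv ?_
    rw [hv]
    simp only
    rw [smul_smul, smul_smul]
    have h2 := (hfp t).ne'
    have h3 : c / f (r t) ^ 2 * (c⁻¹ * f (r t) ^ 2) = 1 := by
      field_simp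
    rw [← mul_assoc] at h3
    rw [h3, one_smul]
  have hv1 : ∀ t, HasDerivAt v (-(c / f (r t) ^ 2) • u t) t := by
    intro t
    have h1 := (hg.V hf t).const_smul c⁻¹
    refine h1.congr_deriv ?_
    rw [smul_smul]
    congr 1
    have h2 := (hfp t).ne'
    have h3 := hcl t
    field_simp
    linarith
  have hX : ∀ t, HasDerivAt (fun t => Real.cos (φ t) • u t - Real.sin (φ t) • v t) 0 t := by
    intro t
    have h1 := ((hφ t).cos.smul (hu1 t)).sub ((hφ t).sin.smul (hv1 t))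
    refine h1.congr_deriv ?_
    module
  have hY : ∀ t, HasDerivAt (fun t => Real.sin (φ t) • u t + Real.cos (φ t) • v t) 0 t := by
    intro t
    have h1 := ((hφ t).sin.smul (hu1 t)).add ((hφ t).cos.smul (hv1 t))
    refine h1.congr_deriv ?_
    module
  have eX : Real.cos (φ t) • u t - Real.sin (φ t) • v t = u 0 := by
    have := is_const_of_deriv_eq_zero (fun t => (hX t).differentiableAt)
      (fun t => (hX t).deriv) t 0
    simpa [hφ0] using this
  have eY : Real.sin (φ t) • u t + Real.cos (φ t) • v t = v 0 := by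
    have := is_const_of_deriv_eq_zero (fun t => (hY t).differentiableAt)
      (fun t => (hY t).deriv) t 0
    simpa [hφ0] using this
  have h0 : u t = Real.cos (φ t) • (Real.cos (φ t) • u t - Real.sin (φ t) • v t) +
      Real.sin (φ t) • (Real.sin (φ t) • u t + Real.cos (φ t) • v t) := by
    have h1 : Real.cos (φ t) • (Real.cos (φ t) • u t - Real.sin (φ t) • v t) +
      Real.sin (φ t) • (Real.sin (φ t) • u t + Real.cos (φ t) • v t) =
        (Real.cos (φ t) ^ 2 + Real.sin (φ t) ^ 2) • u t := by module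
    rw [h1, Real.cos_sq_add_sin_sq, one_smul]
  rw [eX, eY] at h0
  exact h0

/-- The radial part in the case of a positive Clairaut constant. -/
theorem radial (hf : IsProfile L f) {R : ℝ} (hR : 0 < R)
    (hle : ∀ r, 0 < r → r < L → f r ≤ R)
    (hst : ∀ c, 0 < c → c < R → ∃ S a b, c < S ∧ Wall L f S a b ∧ rotP L f c = 2 * π ∧
        timT L f c = 2 * π * R)
    (hg : Geo L f r u) {c : ℝ} (hc : 0 < c)
    (hcl : ∀ t, f (r t) ^ 4 * ‖deriv u t‖ ^ 2 = c ^ 2) (hpos : ∀ t, 0 < r t ∧ r t < L) :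
    ∃ φ : ℝ → ℝ, (∀ t, HasDerivAt φ (c / f (r t) ^ 2) t) ∧ φ 0 = 0 ∧
      (∀ t, φ (t + 2 * π * R) = φ t + 2 * π) ∧ ∀ t, r (t + 2 * π * R) = r t := by
  have hfp : ∀ t, 0 < f (r t) := fun t => hf.fpos _ (hpos t).1 (hpos t).2
  have hE : ∀ t, deriv r t ^ 2 + (c / f (r t)) ^ 2 = 1 := by
    intro t
    have h1 := hg.e3 t
    have h2 := (hfp t).ne'
    have h3 : f (r t) ^ 2 * ‖deriv u t‖ ^ 2 = (c / f (r t)) ^ 2 := by
      rw [div_pow, ← hcl t]
      field_simp
    rw [← h3]
    exact h1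
  have hcf : ∀ t, c ≤ f (r t) := by
    intro t
    have h1 : (c / f (r t)) ^ 2 ≤ 1 ^ 2 := by nlinarith [hE t, sq_nonneg (deriv r t)]
    have h2 := Zl.le_of_sq_le_sq h1 zero_le_one
    rwa [div_le_one (hfp t)] at h2
  have hr2 : ∀ t, deriv (deriv r) t = c ^ 2 * deriv f (r t) / f (r t) ^ 3 := by
    intro t
    have h2 := (hfp t).ne'
    rw [hg.e1, ← hcl t]
    field_simp
  rcases lt_or_eq_of_le ((hcf 0).trans (hle _ (hpos 0).1 (hpos 0).2)) with hcR | hcR
  · obtain ⟨S, a, b, hcS, hw, hrot, htim⟩ := hst c hc hcR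
    obtain ⟨r₁, θ, hr₁, hθ, hpos₁, k1, k2, k3, hTpos, hrT, hθT⟩ := TF.exists_planar hf hw hc hcS
    rw [htim] at hTpos hrT hθT
    rw [hrot] at hθT
    have hfp₁ : ∀ t, 0 < f (r₁ t) := fun t => hf.fpos _ (hpos₁ t).1 (hpos₁ t).2
    have hθd : ∀ t, deriv θ t = c / f (r₁ t) ^ 2 := by
      intro t
      have := k2 t
      have := (hfp₁ t).ne'
      field_simp
      linarith
    have hE₁ : ∀ t, deriv r₁ t ^ 2 + (c / f (r₁ t)) ^ 2 = 1 := by
      intro t
      have h2 := k3 t
      have := (hfp₁ t).ne'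
      rw [hθd] at h2
      rw [← h2]
      field_simp
    obtain ⟨t₀, ht₀⟩ := Zl.hit hf hw hc hcS hr₁ hTpos hpos₁ hrT hE₁
      (fun t => by rw [k1, hθd]) (hpos 0).1 (hpos 0).2 (hcf 0)
    have hρ : (deriv r₁ t₀) ^ 2 = deriv r 0 ^ 2 := by
      have h2 := hE₁ t₀
      rw [ht₀] at h2
      have h3 := hE 0
      linarith
    obtain ⟨σ, hσ, hσρ⟩ : ∃ σ : ℝ, σ ^ 2 = 1 ∧ σ * deriv r₁ t₀ = deriv r 0 := by
      rcases sq_eq_sq_iff_eq_or_eq_neg.1 hρ with h | h
      · exact ⟨1, by norm_num, by rw [h]; ring⟩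
      · exact ⟨-1, by norm_num, by rw [h]; ring⟩
    obtain ⟨s1, s2, s3, s4, s5⟩ := Zl.shift hr₁ hθ t₀ σ hσ
    obtain ⟨α, β, hα, hβ, hab⟩ := exists_ab hf hc
    have hcf₁ : ∀ t, c ≤ f (r₁ t) := by
      intro t
      have h1 : (c / f (r₁ t)) ^ 2 ≤ 1 ^ 2 := by nlinarith [hE₁ t, sq_nonneg (deriv r₁ t)]
      have h2 := Zl.le_of_sq_le_sq h1 zero_le_one
      rwa [div_le_one (hfp₁ t)] at h2
    have hG : ContDiffOn ℝ 1 (fun x => c ^ 2 * deriv f x / f x ^ 3) (Ioo 0 L) := by
      have h1 : ContDiff ℝ 1 f := hf.smooth.of_le (by norm_cast)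
      have h2 : ContDiff ℝ 1 (deriv f) := (cd1 (hf.smooth.of_le (by norm_cast))).2.1
      exact ((contDiff_const.mul h2).contDiffOn).div ((h1.pow 3).contDiffOn)
        (fun x hx => (pow_pos (hf.fpos x hx.1 hx.2) 3).ne')
    have heq : r = fun t => r₁ (t₀ + σ * t) := by
      refine ode_unique hG hα hβ hg.hr s1 hr2 (fun t => ?_)
        (fun t => hab _ (hpos t).1 (hpos t).2 (hcf t))
        (fun t => hab _ (hpos₁ _).1 (hpos₁ _).2 (hcf₁ _)) ?_ ?_
      · rw [s4, k1, hθd]
        have := (hfp₁ (t₀ + σ * t)).ne'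
        field_simp
      · simp [ht₀]
      · rw [s3, mul_zero, add_zero, hσρ]
    have hσ' : σ = 1 ∨ σ = -1 := Zl.sq_one_or σ hσ
    refine ⟨fun t => σ * (θ (t₀ + σ * t) - θ t₀), fun t => ?_, by simp, fun t => ?_, fun t => ?_⟩
    · have h2 := (s2.differentiable (by norm_num)).differentiableAt (x := t) |>.hasDerivAt
      rw [s5, hθd] at h2
      have h3 : r t = r₁ (t₀ + σ * t) := congrFun heq t
      rw [h3]
      exact h2
    · show σ * (θ (t₀ + σ * (t + 2 * π * R)) - θ t₀) = σ * (θ (t₀ + σ * t) - θ t₀) + 2 * π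
      rcases hσ' with h | h
      · rw [h, show t₀ + 1 * (t + 2 * π * R) = (t₀ + 1 * t) + 2 * π * R by ring, hθT]
        ring
      · rw [h]
        have := hθT (t₀ + -1 * (t + 2 * π * R))
        rw [show t₀ + -1 * (t + 2 * π * R) + 2 * π * R = t₀ + -1 * t by ring] at this
        rw [this]
        ring
    · rw [heq]
      show r₁ (t₀ + σ * (t + 2 * π * R)) = r₁ (t₀ + σ * t)
      rcases hσ' with h | h
      · rw [h, show t₀ + 1 * (t + 2 * π * R) = (t₀ + 1 * t) + 2 * π * R by ring, hrT]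
      · rw [h, ← hrT (t₀ + -1 * (t + 2 * π * R))]
        congr 1
        ring
  · have hfR : ∀ t, f (r t) = R := fun t =>
      le_antisymm (hle _ (hpos t).1 (hpos t).2) (by rw [← hcR]; exact hcf t)
    have hr0 : ∀ t, deriv r t = 0 := by
      intro t
      have h1 := hE t
      rw [hfR, hcR, div_self hR.ne'] at h1
      have h2 : deriv r t ^ 2 = 0 := by linarith
      exact pow_eq_zero_iff (two_ne_zero) |>.1 h2
    have hrc : ∀ t s, r t = r s := is_const_of_deriv_eq_zero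
      (fun t => ((cd1 hg.hr).1 t).differentiableAt) hr0
    refine ⟨fun t => t / R, fun t => ?_, by simp, fun t => ?_, fun t => hrc _ _⟩
    · rw [hfR, hcR]
      refine ((hasDerivAt_id t).div_const R).congr_deriv ?_
      field_simp
    · show (t + 2 * π * R) / R = t / R + 2 * π
      field_simp

theorem closed_pos (hf : IsProfile L f) {R : ℝ} (hR : 0 < R)
    (hle : ∀ r, 0 < r → r < L → f r ≤ R)
    (hst : ∀ c, 0 < c → c < R → ∃ S a b, c < S ∧ Wall L f S a b ∧ rotP L f c = 2 * π ∧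
        timT L f c = 2 * π * R)
    (hg : Geo L f r u) {c : ℝ} (hc : 0 < c)
    (hcl : ∀ t, f (r t) ^ 4 * ‖deriv u t‖ ^ 2 = c ^ 2) (hpos : ∀ t, 0 < r t ∧ r t < L) (t : ℝ) :
    polar L (r (t + 2 * π * R)) (u (t + 2 * π * R)) = polar L (r t) (u t) := by
  obtain ⟨φ, h1, h2, h3, h4⟩ := radial hf hR hle hst hg hc hcl hpos
  have hfp : ∀ t, 0 < f (r t) := fun t => hf.fpos _ (hpos t).1 (hpos t).2
  have ha := angle hf hg hc hcl hfp h1 h2
  rw [h4, ha (t + 2 * π * R), h3, Real.cos_add_two_pi, Real.sin_add_two_pi, ← ha t]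

theorem closed_zero (hf : IsProfile L f) {R : ℝ} (hL : L = π * R) (hg : Geo L f r u)
    (hcl : ∀ t, f (r t) ^ 4 * ‖deriv u t‖ ^ 2 = 0) (t : ℝ) :
    polar L (r (t + 2 * π * R)) (u (t + 2 * π * R)) = polar L (r t) (u t) := by
  have hL0 := hf.pos
  have hz : ∀ t, f (r t) = 0 ∨ deriv u t = 0 := by
    intro t
    rcases mul_eq_zero.1 (hcl t) with h | h
    · left
      exact pow_eq_zero_iff (by norm_num) |>.1 h
    · right
      exact norm_eq_zero.1 (pow_eq_zero_iff (two_ne_zero) |>.1 h)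
  have hsq : ∀ t, deriv r t ^ 2 = 1 := by
    intro t
    have h1 := hg.e3 t
    rcases hz t with h | h
    · rw [h] at h1
      linarith
    · rw [h] at h1
      simpa using h1
  have hdd : ∀ t, deriv (deriv r) t = 0 := by
    intro t
    rw [hg.e1]
    rcases hz t with h | h <;> rw [h] <;> simp
  have hdc : ∀ t s, deriv r t = deriv r s := is_const_of_deriv_eq_zero
      (fun t => ((cd1 hg.hr).2.2 t).differentiableAt) hdd
  set σ := deriv r 0 with hσ
  have hσ2 : σ ^ 2 = 1 := hsq 0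
  have hlin : ∀ t s, r t - σ * t = r s - σ * s := by
    have h1 : ∀ t, HasDerivAt (fun t => r t - σ * t) 0 t := by
      intro t
      have h2 := ((cd1 hg.hr).1 t).sub ((hasDerivAt_id t).const_mul σ)
      refine h2.congr_deriv ?_
      rw [hdc t 0]
      ring
    exact is_const_of_deriv_eq_zero (fun t => (h1 t).differentiableAt) (fun t => (h1 t).deriv)
  have hdu : ∀ t, deriv u t = 0 := by
    intro t
    rcases hz t with h | h
    · have h1 := hg.e2 t
      rw [h, zero_smul, zero_add, zero_mul, zero_smul, add_zero] at h1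
      rcases smul_eq_zero.1 h1 with h2 | h2
      · exfalso
        obtain ⟨τ, j, hτ, a1, a2⟩ := red hL0 (r t)
        have h3 := f_red hf hτ j (r t)
        have h4 := df_red hf hτ j (r t)
        rw [h, mul_zero] at h3
        have h5 : deriv r t ≠ 0 := by
          intro h6
          have := hsq t
          rw [h6] at this
          norm_num at this
        have h7 : deriv f (r t) = 0 := by
          rcases mul_eq_zero.1 h2 with h8 | h8
          · linarith
          · exact absurd h8 h5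
        rw [h7] at h4
        rcases eq_or_lt_of_le a1 with b1 | b1
        · rw [← b1, hf.deriv_zero] at h4
          norm_num at h4
        · rcases eq_or_lt_of_le a2 with b2 | b2
          · rw [b2, hf.deriv_L] at h4
            norm_num at h4
          · have := hf.fpos _ b1 b2
            linarith
      · exact h2
    · exact h
  have huc : ∀ t s, u t = u s := is_const_of_deriv_eq_zero
      (fun t => ((cd1 hg.hu).1 t).differentiableAt) hdu
  have hrt : r (t + 2 * π * R) = r t + σ * (2 * L) := by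
    have := hlin (t + 2 * π * R) t
    rw [hL]
    linarith
  rw [huc (t + 2 * π * R) t, hrt]
  unfold polar
  have h9 : π * (r t + σ * (2 * L)) / L = π * r t / L + σ * (2 * π) := by
    field_simp
  rw [h9]
  rcases Zl.sq_one_or σ hσ2 with h | h
  · rw [h, one_mul, Real.sin_add_two_pi, Real.cos_add_two_pi]
  · rw [h, show π * r t / L + -1 * (2 * π) = π * r t / L - 2 * π by ring, Real.sin_sub_two_pi,
      Real.cos_sub_two_pi]

/-- In the equality case every unit speed geodesic has period `2 π R`. -/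
theorem all_closed (hf : IsProfile L f) {k : ℕ} (hk : 2 ≤ k) {R : ℝ} (hR : 0 < R)
    (m : ℕ)
    (hge : ∀ (γ : ℝ → EuclideanSpace ℝ (Fin k) × ℝ) (T : ℝ), 0 < T → IsGeodesic L f 1 γ →
      (∀ t, γ (t + T) = γ t) → 2 * π * R ≤ T)
    (hV : ∫ r in (0 : ℝ)..L, f r ^ (m + 1) ≤ R ^ (m + 2) * ∫ t in (0 : ℝ)..π, Real.sin t ^ (m + 1))
    {γ : ℝ → EuclideanSpace ℝ (Fin n) × ℝ} (hγ : IsGeodesic L f 1 γ) (t : ℝ) :
    γ (t + 2 * π * R) = γ t := by
  obtain ⟨hL, hle, hcr, hst⟩ := Str.structure_eq hf hk hR m hge hV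
  have hL0 := hf.pos
  obtain ⟨r, u, hr, hu, hn, hγe, e1, e2, e3⟩ := hγ
  have hg : Geo L f r u := ⟨hr, hu, hn, e1, e2, fun t => by rw [e3, one_pow]⟩
  obtain ⟨c, hc0, hcl⟩ := hg.clairaut hf
  rw [hγe, hγe]
  rcases hc0.eq_or_lt with h | h
  · refine closed_zero hf hL hg (fun t => ?_) t
    rw [hcl t, ← h]
    norm_num
  · have hfne : ∀ t, f (r t) ≠ 0 := by
      intro t h0
      have h1 := hcl t
      rw [h0] at h1
      have h2 : c ^ 2 = 0 := by rw [← h1]; ring
      have := pow_eq_zero_iff (two_ne_zero) |>.1 h2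
      linarith
    obtain ⟨σ, j, hσ, a1, a2⟩ := red hL0 (r 0)
    have hσ0 : σ ≠ 0 := by
      intro h
      rw [h] at hσ
      norm_num at hσ
    have hg' := hg.red hf hσ j
    have hzc : Continuous (fun t => σ * r t + 2 * j * L) := hg'.hr.continuous
    have hzne : ∀ t, f (σ * r t + 2 * j * L) ≠ 0 := by
      intro t
      rw [f_red hf hσ]
      exact mul_ne_zero hσ0 (hfne t)
    have hpos : ∀ t, 0 < σ * r t + 2 * j * L ∧ σ * r t + 2 * j * L < L := by
      intro t
      have hI := intermediate_value_uIcc (a := 0) (b := t)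
        (f := fun t => σ * r t + 2 * j * L) hzc.continuousOn
      constructor
      · by_contra hcon
        push Not at hcon
        have hmem : (0 : ℝ) ∈ uIcc (σ * r 0 + 2 * j * L) (σ * r t + 2 * j * L) := by
          rw [mem_uIcc]
          right
          exact ⟨hcon, a1⟩
        obtain ⟨s, -, hs⟩ := hI hmem
        apply hzne s
        simp only at hs
        rw [hs, f_zero hf]
      · by_contra hcon
        push Not at hcon
        have hmem : L ∈ uIcc (σ * r 0 + 2 * j * L) (σ * r t + 2 * j * L) := by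
          rw [mem_uIcc]
          left
          exact ⟨a2, hcon⟩
        obtain ⟨s, -, hs⟩ := hI hmem
        apply hzne s
        simp only at hs
        rw [hs, f_L hf]
    have hcl' : ∀ t, f (σ * r t + 2 * j * L) ^ 4 * ‖deriv (fun t => σ • u t) t‖ ^ 2 = c ^ 2 := by
      intro t
      have d3 : deriv (fun t => σ • u t) t = σ • deriv u t := (((cd1 hg.hu).1 t).const_smul σ).deriv
      rw [d3, f_red hf hσ, norm_smul, mul_pow, mul_pow, Real.norm_eq_abs, sq_abs, hσ, one_mul,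
        show σ ^ 4 = (σ ^ 2) ^ 2 by ring, hσ, one_pow, one_mul]
      exact hcl t
    have := closed_pos hf hR hle hst hg' h hcl' hpos t
    rwa [polar_red hL0 hσ, polar_red hL0 hσ] at this

end H804ZR.Un

namespace H804ZR

open Rot

/-- `dr² + f(r)² g_{S^{n-1}}` is a Zoll metric on `S^n`: all geodesics are closed with length `2 π R`. -/
structure IsZoll (n : ℕ) (R L : ℝ) (f : ℝ → ℝ) : Prop where
  /-- the poles have distance `π R` -/
  diam : L = π * R
  /-- every unit speed geodesic has period `2 π R` -/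
  closed : ∀ γ : ℝ → EuclideanSpace ℝ (Fin n) × ℝ, IsGeodesic L f 1 γ →
    ∀ t, γ (t + 2 * π * R) = γ t
  /-- the meridians are unit speed geodesics (all directions at the poles) -/
  pole : ∀ u₀ : EuclideanSpace ℝ (Fin n), ‖u₀‖ = 1 → IsGeodesic L f 1 (fun t => polar L t u₀)
  /-- every unit tangent vector at a point `polar L r₀ u₀` different from the poles is tangent to a unit
  speed geodesic; `ρ` is the radial component and `w` the component tangent to `S^{n-1}` -/
  through : ∀ (r₀ ρ : ℝ) (u₀ w : EuclideanSpace ℝ (Fin n)), 0 < r₀ → r₀ < L → ‖u₀‖ = 1 →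
    inner ℝ u₀ w = 0 → ρ ^ 2 + f r₀ ^ 2 * ‖w‖ ^ 2 = 1 →
    ∃ γ : ℝ → EuclideanSpace ℝ (Fin n) × ℝ, IsGeodesic L f 1 γ ∧ γ 0 = polar L r₀ u₀ ∧
      HasDerivAt γ ((π / L * ρ * Real.cos (π * r₀ / L)) • u₀ + Real.sin (π * r₀ / L) • w,
        -(π / L * ρ * Real.sin (π * r₀ / L))) 0

theorem Un.zoll {L : ℝ} {f : ℝ → ℝ} (hf : IsProfile L f) {k : ℕ} (hk : 2 ≤ k) {R : ℝ} (hR : 0 < R)
    (m : ℕ)
    (hge : ∀ (γ : ℝ → EuclideanSpace ℝ (Fin k) × ℝ) (T : ℝ), 0 < T → IsGeodesic L f 1 γ →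
      (∀ t, γ (t + T) = γ t) → 2 * π * R ≤ T)
    (hV : ∫ r in (0 : ℝ)..L, f r ^ (m + 1) ≤ R ^ (m + 2) * ∫ t in (0 : ℝ)..π, Real.sin t ^ (m + 1))
    (n : ℕ) : IsZoll n R L f := by
  obtain ⟨h1, h2⟩ := Zl.zoll hf hk hR m hge hV n
  refine ⟨h1, fun γ hγ t => Un.all_closed hf hk hR m hge hV hγ t, fun u₀ hu0 => ?_,
    fun r₀ ρ u₀ w a1 a2 a3 a4 a5 => ?_⟩
  · have hd' : deriv (fun t : ℝ => t) = fun _ => 1 := funext fun t => (hasDerivAt_id t).deriv
    refine ⟨fun t => t, fun _ => u₀, contDiff_id, contDiff_const, fun _ => hu0, fun _ => rfl,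
      fun t => ?_, fun t => ?_, fun t => ?_⟩
    · rw [hd']
      simp
    · simp
    · rw [hd']
      simp
  · obtain ⟨γ, b1, -, b3, b4⟩ := h2 r₀ ρ u₀ w a1 a2 a3 a4 a5
    exact ⟨γ, b1, b3, b4⟩

end H804ZR
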