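import Pool.Agent.H804.ZR.Str

/-!
# Equality: all geodesics are closed
-/

open Real Set MeasureTheory Filter Topology
open scoped ContDiff
open Pool.Agent.H206R2

namespace H804ZR

open Rot

/-- The poles of `S^n` with the metric `dr² + f(r)² g_{S^{n-1}}` have distance `π R`, and every unit
tangent vector at a point different from the poles is tangent to a geodesic with period `2 π R`.  The tangent vector at the point `polar L r₀ u₀` is given by its radial component `ρ`
and its component `w` tangent to the sphere `S^{n-1}`. -/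
def ThroughClosed (n : ℕ) (R L : ℝ) (f : ℝ → ℝ) : Prop :=
  L = π * R ∧ ∀ (r₀ ρ : ℝ) (u₀ w : EuclideanSpace ℝ (Fin n)), 0 < r₀ → r₀ < L → ‖u₀‖ = 1 →
    inner ℝ u₀ w = 0 → ρ ^ 2 + f r₀ ^ 2 * ‖w‖ ^ 2 = 1 →
    ∃ γ : ℝ → EuclideanSpace ℝ (Fin n) × ℝ, IsGeodesic L f 1 γ ∧
      (∀ t, γ (t + 2 * π * R) = γ t) ∧ γ 0 = polar L r₀ u₀ ∧
      HasDerivAt γ ((π / L * ρ * Real.cos (π * r₀ / L)) • u₀ + Real.sin (π * r₀ / L) • w,
        -(π / L * ρ * Real.sin (π * r₀ / L))) 0

namespace Zl

/-- The oscillation reaches every point of the well. -/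
theorem hit {L : ℝ} {f : ℝ → ℝ} (hf : IsProfile L f) {S a b c : ℝ} (hw : Wall L f S a b)
    (hc0 : 0 < c) (hcS : c < S) {r : ℝ → ℝ} {T : ℝ} (hr : ContDiff ℝ 2 r) (hT : 0 < T)
    (hpos : ∀ t, 0 < r t ∧ r t < L) (hrT : ∀ t, r (t + T) = r t)
    (hE : ∀ t, deriv r t ^ 2 + (c / f (r t)) ^ 2 = 1)
    (hr2 : ∀ t, deriv (deriv r) t = f (r t) * deriv f (r t) * (c / f (r t) ^ 2) ^ 2)
    {r₀ : ℝ} (h0 : 0 < r₀) (h1 : r₀ < L) (hc : c ≤ f r₀) : ∃ t₀, r t₀ = r₀ := by
  have hfc : Continuous f := hf.smooth.continuous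
  have hrc : Continuous r := hr.continuous
  have hper : Function.Periodic r T := hrT
  obtain ⟨t₁, -, hmax⟩ := (isCompact_Icc (a := (0 : ℝ)) (b := T)).exists_isMaxOn
    (nonempty_Icc.2 hT.le) hrc.continuousOn
  obtain ⟨t₂, -, hmin⟩ := (isCompact_Icc (a := (0 : ℝ)) (b := T)).exists_isMinOn
    (nonempty_Icc.2 hT.le) hrc.continuousOn
  have hmax' : ∀ t, r t ≤ r t₁ := by
    intro t
    obtain ⟨s, hs, he⟩ := hper.exists_mem_Ico₀ hT t
    rw [he]
    exact hmax ⟨hs.1, hs.2.le⟩
  have hmin' : ∀ t, r t₂ ≤ r t := by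
    intro t
    obtain ⟨s, hs, he⟩ := hper.exists_mem_Ico₀ hT t
    rw [he]
    exact hmin ⟨hs.1, hs.2.le⟩
  have d1 : deriv r t₁ = 0 := IsLocalMax.deriv_eq_zero (Filter.Eventually.of_forall hmax')
  have d2 : deriv r t₂ = 0 := IsLocalMin.deriv_eq_zero (Filter.Eventually.of_forall hmin')
  have lev : ∀ t, deriv r t = 0 → f (r t) = c := by
    intro t ht
    have h2 := hE t
    have h3 := hf.fpos _ (hpos t).1 (hpos t).2
    rw [ht] at h2
    have h4 : 0 < c / f (r t) := div_pos hc0 h3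
    have h5 : c / f (r t) = 1 := by nlinarith
    rw [div_eq_one_iff_eq h3.ne'] at h5
    exact h5.symm
  have l1 := lev t₁ d1
  have l2 := lev t₂ d2
  have hmono : StrictMonoOn f (Icc 0 a) := by
    refine strictMonoOn_of_deriv_pos (convex_Icc 0 a) hfc.continuousOn ?_
    intro x hx
    rw [interior_Icc] at hx
    exact hw.inc x hx.1.le hx.2.le
  have hanti : StrictAntiOn f (Icc b L) := by
    refine strictAntiOn_of_deriv_neg (convex_Icc b L) hfc.continuousOn ?_
    intro x hx
    rw [interior_Icc] at hx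
    exact hw.dec x hx.1.le hx.2.le
  have side : ∀ x, 0 < x → x < L → f x = c → x < a ∨ b < x := by
    intro x _ _ hx
    by_contra hcon
    push Not at hcon
    have := hw.mid x hcon.1 hcon.2
    linarith
  have hlt : r t₂ < r t₁ := by
    rcases lt_or_eq_of_le (hmin' t₁) with h | h
    · exact h
    exfalso
    have hconst : r = fun _ => r t₁ := funext fun t => le_antisymm (hmax' t) (h ▸ hmin' t)
    have hdd : deriv (deriv r) t₁ = 0 := by
      rw [hconst]
      simp
    have h2 := hr2 t₁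
    rw [hdd, l1] at h2
    have h3 : 0 < c * (c / c ^ 2) ^ 2 := by positivity
    have h4 : deriv f (r t₁) = 0 := by
      have : (c * (c / c ^ 2) ^ 2) * deriv f (r t₁) = 0 := by linarith
      exact (mul_eq_zero.1 this).resolve_left h3.ne'
    rcases side _ (hpos t₁).1 (hpos t₁).2 l1 with h5 | h5
    · have := hw.inc _ (hpos t₁).1.le h5.le
      linarith
    · have := hw.dec _ h5.le (hpos t₁).2.le
      linarith
  have hx : r t₂ < a := by
    rcases side _ (hpos t₂).1 (hpos t₂).2 l2 with h | h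
    · exact h
    exfalso
    have := hanti ⟨h.le, (hpos t₂).2.le⟩ ⟨(h.trans hlt).le, (hpos t₁).2.le⟩ hlt
    linarith
  have hy : b < r t₁ := by
    rcases side _ (hpos t₁).1 (hpos t₁).2 l1 with h | h
    · exfalso
      have := hmono ⟨(hpos t₂).1.le, (hlt.trans h).le⟩ ⟨(hpos t₁).1.le, h.le⟩ hlt
      linarith
    · exact h
  have e1 : r t₂ ≤ r₀ := by
    by_contra hcon
    push Not at hcon
    have := hmono ⟨h0.le, (hcon.trans hx).le⟩ ⟨(hpos t₂).1.le, hx.le⟩ hcon
    linarith
  have e2 : r₀ ≤ r t₁ := by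
    by_contra hcon
    push Not at hcon
    have := hanti ⟨hy.le, (hpos t₁).2.le⟩ ⟨(hy.trans hcon).le, h1.le⟩ hcon
    linarith
  have hI := intermediate_value_uIcc (a := t₂) (b := t₁) (f := r) hrc.continuousOn
  obtain ⟨t₀, -, ht₀⟩ := hI (by rw [uIcc_of_le hlt.le]; exact ⟨e1, e2⟩)
  exact ⟨t₀, ht₀⟩

/-- Moving the starting point and the direction of a planar solution. -/
theorem shift {r θ : ℝ → ℝ} (hr : ContDiff ℝ 2 r) (hθ : ContDiff ℝ 2 θ) (t₀ σ : ℝ)
    (hσ : σ ^ 2 = 1) :
    ContDiff ℝ 2 (fun t => r (t₀ + σ * t)) ∧ ContDiff ℝ 2 (fun t => σ * (θ (t₀ + σ * t) - θ t₀)) ∧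
    (∀ t, deriv (fun t => r (t₀ + σ * t)) t = σ * deriv r (t₀ + σ * t)) ∧
    (∀ t, deriv (deriv (fun t => r (t₀ + σ * t))) t = deriv (deriv r) (t₀ + σ * t)) ∧
    (∀ t, deriv (fun t => σ * (θ (t₀ + σ * t) - θ t₀)) t = deriv θ (t₀ + σ * t)) := by
  have hs : ∀ t : ℝ, HasDerivAt (fun t => t₀ + σ * t) σ t := fun t => by
    simpa using ((hasDerivAt_id t).const_mul σ).const_add t₀
  have hsc : ContDiff ℝ 2 (fun t : ℝ => t₀ + σ * t) := by fun_prop
  have hr1 : ∀ t, HasDerivAt r (deriv r t) t := fun t =>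
    (hr.differentiable (by norm_num)).differentiableAt.hasDerivAt
  have hθ1 : ∀ t, HasDerivAt θ (deriv θ t) t := fun t =>
    (hθ.differentiable (by norm_num)).differentiableAt.hasDerivAt
  have hr' : ContDiff ℝ 1 (deriv r) := by
    have h2' : ContDiff ℝ (1 + 1) r := by
      have : (1 + 1 : WithTop ℕ∞) = 2 := by norm_num
      rw [this]; exact hr
    exact (contDiff_succ_iff_deriv.1 h2').2.2
  have hr2 : ∀ t, HasDerivAt (deriv r) (deriv (deriv r) t) t := fun t =>
    (hr'.differentiable (by norm_num)).differentiableAt.hasDerivAt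
  have e1 : ∀ t, HasDerivAt (fun t => r (t₀ + σ * t)) (σ * deriv r (t₀ + σ * t)) t := by
    intro t
    have := (hr1 (t₀ + σ * t)).comp t (hs t)
    exact this.congr_deriv (by ring)
  have e1' : deriv (fun t => r (t₀ + σ * t)) = fun t => σ * deriv r (t₀ + σ * t) :=
    funext fun t => (e1 t).deriv
  have e2 : ∀ t, HasDerivAt (fun t => σ * deriv r (t₀ + σ * t)) (deriv (deriv r) (t₀ + σ * t)) t := by
    intro t
    have := ((hr2 (t₀ + σ * t)).comp t (hs t)).const_mul σ
    refine this.congr_deriv ?_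
    calc σ * (deriv (deriv r) (t₀ + σ * t) * σ) = σ ^ 2 * deriv (deriv r) (t₀ + σ * t) := by ring
      _ = _ := by rw [hσ, one_mul]
  have e3 : ∀ t, HasDerivAt (fun t => σ * (θ (t₀ + σ * t) - θ t₀)) (deriv θ (t₀ + σ * t)) t := by
    intro t
    have := (((hθ1 (t₀ + σ * t)).comp t (hs t)).sub_const (θ t₀)).const_mul σ
    refine this.congr_deriv ?_
    calc σ * (deriv θ (t₀ + σ * t) * σ) = σ ^ 2 * deriv θ (t₀ + σ * t) := by ring
      _ = _ := by rw [hσ, one_mul]
  refine ⟨hr.comp hsc, contDiff_const.mul ((hθ.comp hsc).sub contDiff_const),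
    fun t => (e1 t).deriv, fun t => ?_, fun t => (e3 t).deriv⟩
  rw [e1']
  exact (e2 t).deriv

theorem sq_one_or (x : ℝ) (hx : x ^ 2 = 1) : x = 1 ∨ x = -1 := by
  have : (x - 1) * (x + 1) = 0 := by linarith
  rcases mul_eq_zero.1 this with h | h
  · left; linarith
  · right; linarith

theorem le_of_sq_le_sq {x y : ℝ} (h : x ^ 2 ≤ y ^ 2) (hy : 0 ≤ y) : x ≤ y :=
  (abs_le_of_sq_le_sq' h hy).2

theorem periodic_add {n : ℕ} {L : ℝ} {r θ : ℝ → ℝ} {e₁ e₂ : EuclideanSpace ℝ (Fin n)} {T : ℝ}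
    (hr : ∀ t, r (t + T) = r t) (hθ : ∀ t, θ (t + T) = θ t + 2 * π) (t : ℝ) :
    polar L (r (t + T)) (Real.cos (θ (t + T)) • e₁ + Real.sin (θ (t + T)) • e₂) =
      polar L (r t) (Real.cos (θ t) • e₁ + Real.sin (θ t) • e₂) := by
  rw [hr, hθ, Real.cos_add_two_pi, Real.sin_add_two_pi]

theorem circ_deriv {n : ℕ} {θ : ℝ → ℝ} {e₁ e₂ : EuclideanSpace ℝ (Fin n)} (hθ0 : θ 0 = 0) {k : ℝ}
    (hθ : HasDerivAt θ k 0) :
    HasDerivAt (fun t => Real.cos (θ t) • e₁ + Real.sin (θ t) • e₂) (k • e₂) 0 := by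
  have h1 := (hθ.cos.smul_const e₁).add (hθ.sin.smul_const e₂)
  refine h1.congr_deriv ?_
  rw [hθ0]
  simp

/-- Equality: every unit vector is tangent to a closed geodesic of length `2 π R`. -/
theorem zoll {L : ℝ} {f : ℝ → ℝ} (hf : IsProfile L f) {k : ℕ} (hk : 2 ≤ k) {R : ℝ} (hR : 0 < R)
    (m : ℕ)
    (hge : ∀ (γ : ℝ → EuclideanSpace ℝ (Fin k) × ℝ) (T : ℝ), 0 < T → IsGeodesic L f 1 γ →
      (∀ t, γ (t + T) = γ t) → 2 * π * R ≤ T)
    (hV : ∫ r in (0 : ℝ)..L, f r ^ (m + 1) ≤ R ^ (m + 2) * ∫ t in (0 : ℝ)..π, Real.sin t ^ (m + 1))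
    (n : ℕ) : ThroughClosed n R L f := by
  have hpi := Real.pi_pos
  obtain ⟨hL, hle, hcr, hst⟩ := Str.structure_eq hf hk hR m hge hV
  have hL0 := hf.pos
  refine ⟨hL, fun r₀ ρ u₀ w h0 h1 hu0 huw hunit => ?_⟩
  have hf0 := hf.fpos r₀ h0 h1
  by_cases hw0 : w = 0
  · -- a meridian
    rw [hw0] at hunit ⊢
    simp only [norm_zero, ne_eq, OfNat.ofNat_ne_zero, not_false_eq_true, zero_pow, mul_zero,
      add_zero] at hunit
    have hd : ∀ t : ℝ, HasDerivAt (fun t => r₀ + ρ * t) ρ t := fun t => by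
      simpa using ((hasDerivAt_id t).const_mul ρ).const_add r₀
    have hd' : deriv (fun t => r₀ + ρ * t) = fun _ => ρ := funext fun t => (hd t).deriv
    refine ⟨fun t => polar L (r₀ + ρ * t) u₀, ⟨fun t => r₀ + ρ * t, fun _ => u₀, by fun_prop,
      contDiff_const, fun _ => hu0, fun _ => rfl, ?_, ?_, ?_⟩, ?_, ?_, ?_⟩
    · intro t
      rw [hd']
      simp
    · intro t
      simp
    · intro t
      rw [hd']
      simp [hunit]
    · intro t
      have hρ : ρ = 1 ∨ ρ = -1 := sq_one_or ρ hunit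
      show polar L (r₀ + ρ * (t + 2 * π * R)) u₀ = polar L (r₀ + ρ * t) u₀
      unfold polar
      rcases hρ with h | h
      · rw [h]
        have : π * (r₀ + 1 * (t + 2 * π * R)) / L = π * (r₀ + 1 * t) / L + 2 * π := by
          rw [hL]
          field_simp
          ring
        rw [this, Real.cos_add_two_pi, Real.sin_add_two_pi]
      · rw [h]
        have : π * (r₀ + -1 * (t + 2 * π * R)) / L = π * (r₀ + -1 * t) / L - 2 * π := by
          rw [hL]
          field_simp
          ring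
        rw [this, Real.cos_sub_two_pi, Real.sin_sub_two_pi]
    · show polar L (r₀ + ρ * 0) u₀ = polar L r₀ u₀
      rw [mul_zero, add_zero]
    · exact Gd.polar_deriv (r := fun t => r₀ + ρ * t) (u := fun _ => u₀) (by simp) rfl (hd 0)
        (hasDerivAt_const _ _)
  · -- a geodesic with Clairaut constant `c > 0`
    have hwn : 0 < ‖w‖ := norm_pos_iff.2 hw0
    set e₂ := ‖w‖⁻¹ • w with he₂
    have he2 : ‖e₂‖ = 1 := by
      rw [he₂, norm_smul, norm_inv, norm_norm, inv_mul_cancel₀ hwn.ne']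
    have he12 : inner ℝ u₀ e₂ = 0 := by rw [he₂, inner_smul_right, huw, mul_zero]
    have hwe : ‖w‖ • e₂ = w := by rw [he₂, smul_smul, mul_inv_cancel₀ hwn.ne', one_smul]
    set c := f r₀ ^ 2 * ‖w‖ with hc
    have hc0 : 0 < c := by positivity
    have hc2 : c ^ 2 = f r₀ ^ 2 * (1 - ρ ^ 2) := by
      rw [hc, ← hunit]
      ring
    have hcf : c ≤ f r₀ := by
      have : c ^ 2 ≤ f r₀ ^ 2 := by
        rw [hc2]
        nlinarith [sq_nonneg ρ, sq_nonneg (f r₀)]
      exact le_of_sq_le_sq this hf0.le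
    have hfR := hle r₀ h0 h1
    rcases lt_or_eq_of_le (hcf.trans hfR) with hcR | hcR
    · obtain ⟨S, a, b, hcS, hw, hrot, htim⟩ := hst c hc0 hcR
      obtain ⟨r, θ, hr, hθ, hpos, k1, k2, k3, hTpos, hrT, hθT⟩ := TF.exists_planar hf hw hc0 hcS
      rw [htim] at hTpos hrT hθT
      rw [hrot] at hθT
      have hfp : ∀ t, f (r t) ≠ 0 := fun t => (hf.fpos _ (hpos t).1 (hpos t).2).ne'
      have hθd : ∀ t, deriv θ t = c / f (r t) ^ 2 := by
        intro t
        have := k2 t
        have := hfp t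
        field_simp
        linarith
      obtain ⟨t₀, ht₀⟩ := hit hf hw hc0 hcS hr hTpos hpos hrT (fun t => by
        have h2 := k3 t
        have := hfp t
        rw [hθd] at h2
        rw [← h2]
        field_simp) (fun t => by rw [k1, hθd]) h0 h1 hcf
      have hρ : (deriv r t₀) ^ 2 = ρ ^ 2 := by
        have h2 := k3 t₀
        rw [hθd, ht₀] at h2
        have h3 : f r₀ ^ 2 * (c / f r₀ ^ 2) ^ 2 = 1 - ρ ^ 2 := by
          rw [div_pow, hc2]
          field_simp
        linarith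
      obtain ⟨σ, hσ, hσρ⟩ : ∃ σ : ℝ, σ ^ 2 = 1 ∧ σ * deriv r t₀ = ρ := by
        rcases sq_eq_sq_iff_eq_or_eq_neg.1 hρ with h | h
        · exact ⟨1, by norm_num, by rw [h]; ring⟩
        · exact ⟨-1, by norm_num, by rw [h]; ring⟩
      obtain ⟨s1, s2, s3, s4, s5⟩ := shift hr hθ t₀ σ hσ
      have hσ' : σ = 1 ∨ σ = -1 := sq_one_or σ hσ
      have hperr : ∀ t, r (t₀ + σ * (t + 2 * π * R)) = r (t₀ + σ * t) := by
        intro t
        rcases hσ' with h | h
        · rw [h, show t₀ + 1 * (t + 2 * π * R) = (t₀ + 1 * t) + 2 * π * R by ring, hrT]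
        · rw [h, ← hrT (t₀ + -1 * (t + 2 * π * R))]
          congr 1
          ring
      have hperθ : ∀ t, σ * (θ (t₀ + σ * (t + 2 * π * R)) - θ t₀) =
          σ * (θ (t₀ + σ * t) - θ t₀) + 2 * π := by
        intro t
        rcases hσ' with h | h
        · rw [h, show t₀ + 1 * (t + 2 * π * R) = (t₀ + 1 * t) + 2 * π * R by ring, hθT]
          ring
        · rw [h]
          have := hθT (t₀ + -1 * (t + 2 * π * R))
          rw [show t₀ + -1 * (t + 2 * π * R) + 2 * π * R = t₀ + -1 * t by ring] at this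
          rw [this]
          ring
      refine ⟨_, Gd.geodesic_in hf (c := c) hu0 he2 he12 s1 s2 (fun t => hpos _) (fun t => ?_)
        (fun t => ?_) (fun t => ?_), ?_, ?_, ?_⟩
      · rw [s4, s5]
        exact k1 _
      · rw [s5]
        exact k2 _
      · rw [s3, s5, mul_pow, hσ, one_mul]
        exact k3 _
      · exact periodic_add (r := fun t => r (t₀ + σ * t))
          (θ := fun t => σ * (θ (t₀ + σ * t) - θ t₀)) hperr hperθ
      · simp [ht₀]
      · refine Gd.polar_deriv (r := fun t => r (t₀ + σ * t)) (by simp [ht₀]) (by simp) ?_ ?_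
        · have := (s1.differentiable (by norm_num)).differentiableAt (x := (0 : ℝ)) |>.hasDerivAt
          rw [s3, mul_zero, add_zero, hσρ] at this
          exact this
        · have h2 := (s2.differentiable (by norm_num)).differentiableAt (x := (0 : ℝ)) |>.hasDerivAt
          rw [s5, mul_zero, add_zero, hθd, ht₀] at h2
          have h3 := circ_deriv (e₁ := u₀) (e₂ := e₂) (by simp) h2
          have h4 : c / f r₀ ^ 2 = ‖w‖ := by
            rw [hc]
            field_simp
          rw [h4, hwe] at h3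
          exact h3
    · -- the equator
      have hfr : f r₀ = R := le_antisymm hfR (by rw [← hcR]; exact hcf)
      have hρ0 : ρ = 0 := by
        rw [hcR, hfr] at hc2
        have : R ^ 2 * ρ ^ 2 = 0 := by linarith
        have := (mul_eq_zero.1 this).resolve_left (by positivity)
        exact pow_eq_zero_iff (two_ne_zero) |>.1 this
      have hwR : ‖w‖ = 1 / R := by
        rw [hcR, hfr] at hc
        field_simp
        have : R * (R * ‖w‖) = R * 1 := by rw [mul_one]; nlinarith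
        have := mul_left_cancel₀ hR.ne' this
        linarith
      have hdf : deriv f r₀ = 0 := by
        refine IsLocalMax.deriv_eq_zero ?_
        filter_upwards [isOpen_Ioo.mem_nhds (⟨h0, h1⟩ : r₀ ∈ Ioo 0 L)] with x hx
        rw [hfr]
        exact hle x hx.1 hx.2
      have hθd : ∀ t : ℝ, HasDerivAt (fun t : ℝ => t / R) (1 / R) t := fun t =>
        (hasDerivAt_id t).div_const _
      have hdθ : deriv (fun t : ℝ => t / R) = fun _ => 1 / R := funext fun t => (hθd t).deriv
      refine ⟨_, Gd.geodesic_in hf (c := R) hu0 he2 he12 (r := fun _ => r₀) (θ := fun t => t / R)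
        contDiff_const (contDiff_id.div_const _) (fun t => ⟨h0, h1⟩) (fun t => ?_)
        (fun t => ?_) (fun t => ?_), ?_, ?_, ?_⟩
      · simp [hdf]
      · rw [hdθ, hfr]
        field_simp
      · rw [hdθ, hfr]
        simp only [deriv_const, ne_eq, OfNat.ofNat_ne_zero, not_false_eq_true, zero_pow, zero_add]
        field_simp
      · exact periodic_add (r := fun _ => r₀) (θ := fun t => t / R) (fun _ => rfl) (fun t => by
          field_simp)
      · simp
      · refine Gd.polar_deriv (r := fun _ => r₀) rfl (by simp) ?_ ?_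
        · rw [hρ0]
          exact hasDerivAt_const _ _
        · have h3 := circ_deriv (e₁ := u₀) (e₂ := e₂) (by simp) (hθd 0)
          rw [← hwR, hwe] at h3
          exact h3

end Zl

end H804ZR
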